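import Pool.Agent.Lib.MP_06e9af_co.Twig.Join

namespace Pool.Agent.Results.MP_06e9af_co.LinearSaving

open Pool.Agent.Lib.MP_06e9af_co

/-- A tree on `n` vertices with a vertex `x` of degree at least `ε n` has Ramsey number at most
`2 n - c t`, where `t` is the size of the colour class of `x` and `c > 0` depends on `ε` only. -/
theorem result (ε : ℝ) (hε : 0 < ε) : ∃ c : ℝ, 0 < c ∧
    ∀ (n : ℕ) (T : SimpleGraph (Fin n)), T.IsTree → ∀ x : Fin n,
      ε * n ≤ (T.neighborSet x).ncard →
      ∃ r, IsRamseyNumber T r ∧ (r : ℝ) ≤ 2 * n - c * {v | Even (T.dist x v)}.ncard :=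
  Twig.join hε

end Pool.Agent.Results.MP_06e9af_co.LinearSaving
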