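import Pool.Agent.Lib.MP_06e9af_co.Final

namespace Pool.Agent.Results.MP_06e9af_co.OddTrees

open Pool.Agent.Lib.MP_06e9af_co

/-- For odd `n ≥ 3` every tree on `n` vertices has Ramsey number at most `2n - 3`, with equality
exactly for the star. -/
theorem result (n : ℕ) (hn : 3 ≤ n) (hodd : Odd n) (T : SimpleGraph (Fin n)) (hT : T.IsTree) :
    ∃ r, IsRamseyNumber T r ∧ r ≤ 2 * n - 3 ∧ (r = 2 * n - 3 ↔ IsStar T) := by
  obtain ⟨j, rfl⟩ := hodd
  by_cases hs : IsStar T
  · obtain ⟨r, h1, h2⟩ := exists_ramsey (arrows_star (by omega) hT hs)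
    refine ⟨r, h1, by omega, fun _ => hs, fun _ => ?_⟩
    by_contra hne
    exact star_lower (by omega) hs (by omega) h1.1
  · have h4 := four_le hT hs
    obtain ⟨r, h1, h2⟩ := exists_ramsey (arrows_nonstar (by omega) hT hs)
    exact ⟨r, h1, by omega, fun h => by omega, fun h => absurd h hs⟩

end Pool.Agent.Results.MP_06e9af_co.OddTrees
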