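import Pool.Agent.Lib.MP_06e9af_co.Sp.Up
import Pool.Agent.Lib.MP_06e9af_co.Sp.Low

namespace Pool.Agent.Results.MP_06e9af_co.Subdivided

open Pool.Agent.Lib.MP_06e9af_co

/-- The Ramsey number of the star with `d` edges, `g` of them subdivided, lies between two values
of the form `max (star value) (2 d - 1 + const * g ^ 2 / d)`. -/
theorem result (d g : ℕ) (hg : 1 ≤ g) (hd : 7 * g ≤ d + 1) :
    ∃ r, IsRamseyNumber (spider d g) r ∧
      max (if Even d then 2 * d - 1 else 2 * d) (2 * d - 1 + g ^ 2 / (12 * d)) ≤ r ∧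
      r ≤ max (if Even d then 2 * d - 1 else 2 * d) (2 * d - 1 + (6 * g ^ 2 - 1) / d) := by
  classical
  have d0 : 0 < d := by omega
  have up : Arrows (spider d g)
      (max (if Even d then 2 * d - 1 else 2 * d) (2 * d - 1 + (6 * g ^ 2 - 1) / d)) := by
    have h1 := Nat.lt_mul_div_succ (6 * g ^ 2 - 1) d0
    generalize (6 * g ^ 2 - 1) / d = a at h1 ⊢
    have h2 : 6 * g ^ 2 ≤ (a + 1) * d := by rw [mul_comm (a + 1)]; omega
    by_cases h : 1 ≤ a ∨ Even d
    · exact Sp.arrows_mono (le_max_right _ _) (Sp.upper hg hd h2 h)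
    · rw [not_or] at h
      have h3 : 6 * g ^ 2 ≤ (1 + 1) * d := h2.trans (Nat.mul_le_mul_right _ (by omega))
      refine Sp.arrows_mono ?_ (Sp.upper (a := 1) hg hd h3 (Or.inl le_rfl))
      rw [if_neg h.2]
      exact le_trans (by omega) (le_max_left _ _)
  have hex : ∃ N, Arrows (spider d g) N := ⟨_, up⟩
  refine ⟨Nat.find hex, ⟨Nat.find_spec hex, fun M hM => Nat.find_min' hex hM⟩, ?_,
    Nat.find_min' hex up⟩
  have hr := Nat.find_spec hex
  generalize Nat.find hex = r at hr
  have low : (if Even d then 2 * d - 1 else 2 * d) ≤ r := by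
    by_contra n
    exact Sp.lower (d := d) (g := g) (L := (if Even d then 2 * d - 1 else 2 * d) - 1)
      (by omega) (by omega) (by split_ifs <;> omega) (Sp.arrows_mono (by omega) hr)
  refine max_le low ?_
  have h1 := Nat.mul_div_le (g ^ 2) (12 * d)
  generalize g ^ 2 / (12 * d) = b at h1 ⊢
  rcases b with _ | a
  · split_ifs at low <;> omega
  by_contra n
  have b1 : 72 * (a + 1) ≤ g := by
    refine Nat.le_of_mul_le_mul_right ?_ (show 0 < g by omega)
    have : 12 * (6 * g) * (a + 1) ≤ 12 * d * (a + 1) := by gcongr; omega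
    nlinarith
  have c0 : 0 < g / 4 := by omega
  have q1 := Nat.mul_div_le d (g / 4)
  have q2 := Nat.lt_mul_div_succ d c0
  generalize d / (g / 4) = q at q1 q2
  have b2 : 12 * (q * (a + 1)) ≤ 5 * g := by
    refine Nat.le_of_mul_le_mul_right ?_ c0
    have e1 : 12 * (g / 4 * q) * (a + 1) ≤ 12 * d * (a + 1) := by gcongr
    have e2 : g * g ≤ g * (5 * (g / 4)) := Nat.mul_le_mul_left _ (by omega)
    nlinarith
  refine Sp.threshold (a := a) (m := q + 1) (c := g / 4) hg (by rw [mul_comm]; omega) ?_ (by omega)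
    (Sp.arrows_mono (by omega) hr)
  rw [add_mul, one_mul]
  omega

end Pool.Agent.Results.MP_06e9af_co.Subdivided
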