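import Pool.Agent.Lib.MP_06e9af_co.U.Fin

namespace Pool.Agent.Results.MP_06e9af_co.TwoTrees

open Pool.Agent.Lib.MP_06e9af_co

/-- For trees `T₁`, `T₂` on `n ≥ 5` vertices: every red/blue colouring of the complete graph on
`2n - 4` vertices has a red `T₁` or a blue `T₂` if and only if neither tree is a star. -/
theorem result (n : ℕ) (hn : 5 ≤ n) (T₁ T₂ : SimpleGraph (Fin n)) (h₁ : T₁.IsTree)
    (h₂ : T₂.IsTree) :
    (∀ G : SimpleGraph (Fin (2 * n - 4)), T₁.IsContained G ∨ T₂.IsContained Gᶜ) ↔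
      (¬ IsStar T₁ ∧ ¬ IsStar T₂) := by
  refine ⟨fun h => ⟨fun hs => ?_, fun hs => ?_⟩, fun h G => two_trees_fin hn h₁ h.1 h₂ h.2 G⟩
  · obtain ⟨G, a, b⟩ := star_pair (by omega) h₂ hs
    exact (h G).elim b a
  · obtain ⟨G, a, b⟩ := star_pair (by omega) h₁ hs
    exact (h Gᶜ).elim a (by rwa [compl_compl])

end Pool.Agent.Results.MP_06e9af_co.TwoTrees
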